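import Pool.Agent.Run7.h738.HPP.Poly

/-! # Polygons and pairs of mutually avoiding bridges: the bijection -/

set_option autoImplicit false

namespace Run7.h738.HPP

open scoped Classical
open Run7.h738.BV (nS Steep ht steep_ht)
open Run7.h738.PG (Loop Loop_finite nP poly_extr)
open Pool.Agent.W840.CT (SW)

section
variable (h : ℤ × ℤ → ℝ)

/-- pairs of mutually avoiding (almost) bridges with common end points -/
def BR (y : ℝ) (k l : ℕ) : Set ((Fin (k + 1) → ℤ × ℤ) × (Fin (l + 1) → ℤ × ℤ)) :=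
  {q | (SW k q.1 ∧ ∀ i, -y ≤ h (q.1 i) ∧ h (q.1 i) ≤ h (q.1 (Fin.last k)) + y) ∧
    (SW l q.2 ∧ ∀ i, -y ≤ h (q.2 i) ∧ h (q.2 i) ≤ h (q.2 (Fin.last l)) + y) ∧
    q.1 (Fin.last k) = q.2 (Fin.last l) ∧
    ∀ i j, q.1 i = q.2 j → (i = 0 ∧ j = 0) ∨ (i = Fin.last k ∧ j = Fin.last l)}

variable {h}

theorem cast_inj {m a b : ℕ} (ha : a < m) (hb : b < m) (hab : (a : ZMod m) = (b : ZMod m)) :
    a = b := by
  have := (ZMod.natCast_eq_natCast_iff' a b m).1 hab
  rwa [Nat.mod_eq_of_lt ha, Nat.mod_eq_of_lt hb] at this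

/-- the two arcs -/
def cutP {k l : ℕ} (f : ZMod (k + l) → ℤ × ℤ) : (Fin (k + 1) → ℤ × ℤ) × (Fin (l + 1) → ℤ × ℤ) :=
  (fun i => f ((i.1 : ℕ) : ZMod (k + l)), fun j => f (-((j.1 : ℕ) : ZMod (k + l))))

/-- the polygon -/
def glueP {k l : ℕ} (q : (Fin (k + 1) → ℤ × ℤ) × (Fin (l + 1) → ℤ × ℤ)) :
    ZMod (k + l) → ℤ × ℤ :=
  fun t => if ht : t.val ≤ k then q.1 ⟨t.val, by omega⟩ else q.2 ⟨k + l - t.val, by omega⟩

theorem kl_zero (k l : ℕ) : (k : ZMod (k + l)) = -(l : ZMod (k + l)) := by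
  have h1 : ((k + l : ℕ) : ZMod (k + l)) = 0 := ZMod.natCast_self _
  push_cast at h1
  exact eq_neg_of_add_eq_zero_left h1

theorem split_t {k l : ℕ} (hk : 1 ≤ k) (t : ZMod (k + l)) :
    (∃ a : ℕ, a < k ∧ t = (a : ZMod (k + l))) ∨
      (∃ a : ℕ, 1 ≤ a ∧ a ≤ l ∧ t = -(a : ZMod (k + l))) := by
  have : NeZero (k + l) := ⟨by omega⟩
  have hv := ZMod.val_lt t
  have ht : t = (t.val : ZMod (k + l)) := (ZMod.natCast_zmod_val t).symm
  rcases lt_or_ge t.val k with h1 | h1
  · exact Or.inl ⟨t.val, h1, ht⟩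
  · refine Or.inr ⟨k + l - t.val, by omega, by omega, ?_⟩
    have h2 : ((k + l - t.val + t.val : ℕ) : ZMod (k + l)) = 0 := by
      rw [Nat.sub_add_cancel hv.le]
      exact ZMod.natCast_self _
    rw [Nat.cast_add, ← ht] at h2
    exact eq_neg_of_add_eq_zero_right h2

theorem cutP_mem {y : ℝ} (h00 : h 0 = 0) {k l : ℕ} (hk : 1 ≤ k) (hl : 1 ≤ l)
    {f : ZMod (k + l) → ℤ × ℤ} (hf : Loop (k + l) f) (h1 : Lo h y f 0)
    (h2 : Hi h y f (k : ZMod (k + l))) : cutP f ∈ BR h y k l := by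
  have hinj := hf.2.1
  have hlow : ∀ t, -y ≤ h (f t) := by
    intro t
    have := h1 t
    rw [hf.1, h00] at this
    linarith
  refine ⟨⟨SW_intro ?_ ?_ ?_, ?_⟩, ⟨SW_intro ?_ ?_ ?_, ?_⟩, ?_, ?_⟩
  · show f (((0 : Fin (k + 1)).1 : ℕ) : ZMod (k + l)) = 0
    simp only [Fin.val_zero, Nat.cast_zero]
    exact hf.1
  · intro a ha
    show st (f ((a : ℕ) : ZMod (k + l))) (f ((a + 1 : ℕ) : ZMod (k + l)))
    rw [Nat.cast_add, Nat.cast_one]
    exact hf.2.2 _
  · intro i j hij
    have h3 := cast_inj (by omega) (by omega) (hinj hij)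
    exact Fin.ext h3
  · intro i
    refine ⟨hlow _, ?_⟩
    have h3 := h2 ((i.1 : ℕ) : ZMod (k + l))
    show h (f _) ≤ h (f (((Fin.last k).1 : ℕ) : ZMod (k + l))) + y
    rw [Fin.val_last]
    exact h3
  · show f (-(((0 : Fin (l + 1)).1 : ℕ) : ZMod (k + l))) = 0
    simp only [Fin.val_zero, Nat.cast_zero, neg_zero]
    exact hf.1
  · intro a ha
    show st (f (-((a : ℕ) : ZMod (k + l)))) (f (-((a + 1 : ℕ) : ZMod (k + l))))
    have h3 := hf.2.2 (-((a + 1 : ℕ) : ZMod (k + l)))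
    have e : -((a + 1 : ℕ) : ZMod (k + l)) + 1 = -((a : ℕ) : ZMod (k + l)) := by
      push_cast
      ring
    rw [e] at h3
    exact st_symm h3
  · intro i j hij
    have h3 := cast_inj (by omega) (by omega) (neg_injective (hinj hij))
    exact Fin.ext h3
  · intro i
    refine ⟨hlow _, ?_⟩
    have h3 := h2 (-((i.1 : ℕ) : ZMod (k + l)))
    show h (f _) ≤ h (f (-(((Fin.last l).1 : ℕ) : ZMod (k + l)))) + y
    rw [Fin.val_last, ← kl_zero]
    exact h3
  · show f (((Fin.last k).1 : ℕ) : ZMod (k + l)) = f (-(((Fin.last l).1 : ℕ) : ZMod (k + l)))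
    rw [Fin.val_last, Fin.val_last, ← kl_zero]
  · intro i j hij
    have h3 : ((i.1 : ℕ) : ZMod (k + l)) = -((j.1 : ℕ) : ZMod (k + l)) := hinj hij
    have h4 : ((i.1 + j.1 : ℕ) : ZMod (k + l)) = 0 := by
      push_cast
      rw [h3]
      ring
    rw [ZMod.natCast_eq_zero_iff] at h4
    obtain ⟨c, hc⟩ := h4
    have hi := i.2
    have hj := j.2
    rcases Nat.eq_zero_or_pos c with h5 | h5
    · left
      rw [h5, Nat.mul_zero] at hc
      have e1 : i.1 = 0 := by omega
      have e2 : j.1 = 0 := by omega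
      exact ⟨Fin.ext e1, Fin.ext e2⟩
    · right
      have h6 : k + l ≤ (k + l) * c := Nat.le_mul_of_pos_right _ h5
      have e1 : i.1 = k := by omega
      have e2 : j.1 = l := by omega
      exact ⟨Fin.ext (by rw [Fin.val_last]; exact e1), Fin.ext (by rw [Fin.val_last]; exact e2)⟩

theorem cutP_inj {k l : ℕ} (hk : 1 ≤ k) {f f' : ZMod (k + l) → ℤ × ℤ}
    (hc : cutP f = cutP f') : f = f' := by
  funext t
  rcases split_t hk t with ⟨a, ha, rfl⟩ | ⟨a, ha, ha', rfl⟩
  · exact congrFun (congrArg Prod.fst hc) ⟨a, by omega⟩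
  · exact congrFun (congrArg Prod.snd hc) ⟨a, by omega⟩

theorem glueP_le {k l : ℕ} (hl : 1 ≤ l) (q : (Fin (k + 1) → ℤ × ℤ) × (Fin (l + 1) → ℤ × ℤ))
    (a : ℕ) (ha : a ≤ k) : glueP q (a : ZMod (k + l)) = q.1 ⟨a, by omega⟩ := by
  have hv : (a : ZMod (k + l)).val = a := ZMod.val_natCast_of_lt (by omega)
  unfold glueP
  rw [dif_pos (by rw [hv]; exact ha)]
  exact congrArg q.1 (Fin.ext hv)

theorem glueP_ge {k l : ℕ} (hk : 1 ≤ k) (hl : 1 ≤ l)
    {q : (Fin (k + 1) → ℤ × ℤ) × (Fin (l + 1) → ℤ × ℤ)} (h0 : q.1 0 = q.2 0)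
    (h1 : q.1 (Fin.last k) = q.2 (Fin.last l)) (a : ℕ) (ha : a ≤ l) :
    glueP q (-(a : ZMod (k + l))) = q.2 ⟨a, by omega⟩ := by
  rcases Nat.eq_zero_or_pos a with h2 | h2
  · subst h2
    have h3 := glueP_le hl q 0 (Nat.zero_le k)
    rw [Nat.cast_zero] at h3
    rw [Nat.cast_zero, neg_zero, h3]
    exact h0
  · rcases lt_or_eq_of_le ha with h3 | h3
    · have e : -(a : ZMod (k + l)) = ((k + l - a : ℕ) : ZMod (k + l)) := by
        have h4 : ((k + l - a + a : ℕ) : ZMod (k + l)) = 0 := by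
          rw [Nat.sub_add_cancel (by omega)]
          exact ZMod.natCast_self _
        rw [Nat.cast_add] at h4
        exact (eq_neg_of_add_eq_zero_left h4).symm
      have hv : ((k + l - a : ℕ) : ZMod (k + l)).val = k + l - a :=
        ZMod.val_natCast_of_lt (by omega)
      rw [e]
      unfold glueP
      rw [dif_neg (by rw [hv]; omega)]
      refine congrArg q.2 (Fin.ext ?_)
      show k + l - ((k + l - a : ℕ) : ZMod (k + l)).val = a
      rw [hv]
      omega
    · subst h3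
      rw [← kl_zero, glueP_le hl q k le_rfl]
      exact h1

theorem glueP_mem {y : ℝ} (h00 : h 0 = 0) {k l : ℕ} (hk : 1 ≤ k) (hl : 1 ≤ l)
    {q : (Fin (k + 1) → ℤ × ℤ) × (Fin (l + 1) → ℤ × ℤ)} (hq : q ∈ BR h y k l) :
    Loop (k + l) (glueP q) ∧ Lo h y (glueP q) 0 ∧ Hi h y (glueP q) (k : ZMod (k + l)) := by
  obtain ⟨⟨a1, a2⟩, ⟨b1, b2⟩, he, hav⟩ := hq
  have ha0 : q.1 0 = 0 := a1.1
  have hb0 : q.2 0 = 0 := b1.1
  have hab : q.1 0 = q.2 0 := ha0.trans hb0.symm
  have hz : glueP q 0 = 0 := by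
    have := glueP_le hl q 0 (Nat.zero_le k)
    rw [Nat.cast_zero] at this
    rw [this]
    exact ha0
  refine ⟨⟨hz, ?_, ?_⟩, ?_, ?_⟩
  · intro s t hst
    rcases split_t hk s with ⟨a, ha, rfl⟩ | ⟨a, ha, ha', rfl⟩ <;>
      rcases split_t hk t with ⟨b, hb, rfl⟩ | ⟨b, hb, hb', rfl⟩
    · rw [glueP_le hl q a ha.le, glueP_le hl q b hb.le] at hst
      have h3 := a1.2.2 hst
      rw [Fin.mk.injEq] at h3
      rw [h3]
    · rw [glueP_le hl q a ha.le, glueP_ge hk hl hab he b hb'] at hst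
      rcases hav _ _ hst with h3 | h3
      · have h4 := congrArg Fin.val h3.2
        simp at h4
        omega
      · have h4 := congrArg Fin.val h3.1
        simp at h4
        omega
    · rw [glueP_ge hk hl hab he a ha', glueP_le hl q b hb.le] at hst
      rcases hav _ _ hst.symm with h3 | h3
      · have h4 := congrArg Fin.val h3.2
        simp at h4
        omega
      · have h4 := congrArg Fin.val h3.1
        simp at h4
        omega
    · rw [glueP_ge hk hl hab he a ha', glueP_ge hk hl hab he b hb'] at hst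
      have h3 := b1.2.2 hst
      rw [Fin.mk.injEq] at h3
      rw [h3]
  · intro t
    rcases split_t hk t with ⟨a, ha, rfl⟩ | ⟨a, ha, ha', rfl⟩
    · have h3 := SW_step a1 a (by omega)
      have e : (a : ZMod (k + l)) + 1 = ((a + 1 : ℕ) : ZMod (k + l)) := by push_cast; ring
      rw [e, glueP_le hl q a ha.le, glueP_le hl q (a + 1) ha]
      exact h3
    · have h3 := SW_step b1 (a - 1) (by omega)
      have e : -(a : ZMod (k + l)) + 1 = -((a - 1 : ℕ) : ZMod (k + l)) := by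
        rw [Nat.cast_sub ha]
        push_cast
        ring
      have e2 : (⟨a - 1 + 1, by omega⟩ : Fin (l + 1)) = ⟨a, by omega⟩ := Fin.ext (by simp; omega)
      rw [e2] at h3
      rw [e, glueP_ge hk hl hab he a ha', glueP_ge hk hl hab he (a - 1) (by omega)]
      exact st_symm h3
  · intro t
    rw [hz, h00]
    rcases split_t hk t with ⟨a, ha, rfl⟩ | ⟨a, ha, ha', rfl⟩
    · rw [glueP_le hl q a ha.le]
      have := (a2 ⟨a, by omega⟩).1
      linarith
    · rw [glueP_ge hk hl hab he a ha']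
      have := (b2 ⟨a, by omega⟩).1
      linarith
  · intro t
    rw [glueP_le hl q k le_rfl]
    have e3 : (⟨k, by omega⟩ : Fin (k + 1)) = Fin.last k := rfl
    rw [e3]
    rcases split_t hk t with ⟨a, ha, rfl⟩ | ⟨a, ha, ha', rfl⟩
    · rw [glueP_le hl q a ha.le]
      exact (a2 ⟨a, by omega⟩).2
    · rw [glueP_ge hk hl hab he a ha', he]
      exact (b2 ⟨a, by omega⟩).2

theorem glueP_inj {k l : ℕ} (hk : 1 ≤ k) (hl : 1 ≤ l)
    {q q' : (Fin (k + 1) → ℤ × ℤ) × (Fin (l + 1) → ℤ × ℤ)} (h0 : q.1 0 = q.2 0)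
    (h1 : q.1 (Fin.last k) = q.2 (Fin.last l)) (h0' : q'.1 0 = q'.2 0)
    (h1' : q'.1 (Fin.last k) = q'.2 (Fin.last l)) (hg : glueP q = glueP q') : q = q' := by
  refine Prod.ext ?_ ?_
  · funext i
    have h3 := congrFun hg ((i.1 : ℕ) : ZMod (k + l))
    rw [glueP_le hl q i.1 (by omega), glueP_le hl q' i.1 (by omega)] at h3
    exact h3
  · funext i
    have h3 := congrFun hg (-((i.1 : ℕ) : ZMod (k + l)))
    rw [glueP_ge hk hl h0 h1 i.1 (by omega), glueP_ge hk hl h0' h1' i.1 (by omega)] at h3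
    exact h3

theorem BR_finite (y : ℝ) (k l : ℕ) : (BR h y k l).Finite := by
  refine (((Finset.finite_toSet (Pool.Agent.TH546.SAW.W k)).prod
    (Finset.finite_toSet (Pool.Agent.TH546.SAW.W l)))).subset ?_
  intro q hq
  exact ⟨Finset.mem_coe.2 (Pool.Agent.TH546.SAW.mem_W.2 hq.1.1),
    Finset.mem_coe.2 (Pool.Agent.TH546.SAW.mem_W.2 hq.2.1.1)⟩

theorem BR_card {y : ℝ} (h00 : h 0 = 0) {m k l : ℕ} [NeZero m] (hm : k + l = m) (hk : 1 ≤ k)
    (hl : 1 ≤ l) : (BR h y k l).ncard =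
      ((YF (m := m) h y).filter (fun p => p.2 = (k : ZMod m))).card := by
  subst hm
  apply le_antisymm
  · rw [← Set.ncard_coe_finset]
    refine Set.ncard_le_ncard_of_injOn (fun q => (glueP q, (k : ZMod (k + l)))) ?_ ?_
      (Finset.finite_toSet _)
    · intro q hq
      rw [Finset.mem_coe, Finset.mem_filter, mem_YF]
      exact ⟨glueP_mem h00 hk hl hq, rfl⟩
    · intro q hq q' hq' he
      simp only [Prod.mk.injEq, and_true] at he
      exact glueP_inj hk hl ((hq.1.1.1 : q.1 0 = 0).trans (hq.2.1.1.1 : q.2 0 = 0).symm) hq.2.2.1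
        ((hq'.1.1.1 : q'.1 0 = 0).trans (hq'.2.1.1.1 : q'.2 0 = 0).symm) hq'.2.2.1 he
  · rw [← Set.ncard_coe_finset]
    refine Set.ncard_le_ncard_of_injOn (fun p => cutP p.1) ?_ ?_ (BR_finite y k l)
    · rintro ⟨f, t⟩ hp
      rw [Finset.mem_coe, Finset.mem_filter, mem_YF] at hp
      obtain ⟨⟨h1, h2, h3⟩, h4⟩ := hp
      simp only at h4
      rw [h4] at h3
      exact cutP_mem h00 hk hl h1 h2 h3
    · rintro ⟨f, t⟩ hp ⟨f', t'⟩ hp' he
      rw [Finset.mem_coe, Finset.mem_filter] at hp hp'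
      simp only at hp hp' he
      rw [cutP_inj hk he, hp.2, hp'.2]

theorem BR_sum_le {y : ℝ} (h00 : h 0 = 0) {m : ℕ} [NeZero m] :
    ∑ k ∈ Finset.Ico 1 m, (BR h y k (m - k)).ncard ≤ (YF (m := m) h y).card := by
  have h1 : ∀ k ∈ Finset.Ico 1 m, (BR h y k (m - k)).ncard =
      ((YF (m := m) h y).filter (fun p => p.2 = (k : ZMod m))).card := by
    intro k hk
    rw [Finset.mem_Ico] at hk
    exact BR_card h00 (by omega) hk.1 (by omega)
  rw [Finset.sum_congr rfl h1, ← Finset.card_biUnion]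
  · refine Finset.card_le_card ?_
    intro p hp
    rw [Finset.mem_biUnion] at hp
    obtain ⟨k, -, hk⟩ := hp
    exact (Finset.mem_filter.1 hk).1
  · intro k hk k' hk' hkk
    rw [Finset.mem_coe, Finset.mem_Ico] at hk hk'
    rw [Function.onFun, Finset.disjoint_left]
    intro p hp hp'
    rw [Finset.mem_filter] at hp hp'
    exact hkk (cast_inj (by omega) (by omega) (hp.2.symm.trans hp'.2))

theorem BR_sum_ge {y : ℝ} (h00 : h 0 = 0) {m : ℕ} [NeZero m]
    (hne : ∀ f : ZMod m → ℤ × ℤ, Loop m f → Lo h y f 0 → ¬ Hi h y f 0) :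
    (YF (m := m) h y).card ≤ ∑ k ∈ Finset.Ico 1 m, (BR h y k (m - k)).ncard := by
  have h1 : ∀ k ∈ Finset.Ico 1 m, (BR h y k (m - k)).ncard =
      ((YF (m := m) h y).filter (fun p => p.2 = (k : ZMod m))).card := by
    intro k hk
    rw [Finset.mem_Ico] at hk
    exact BR_card h00 (by omega) hk.1 (by omega)
  rw [Finset.sum_congr rfl h1]
  refine le_trans (Finset.card_le_card ?_) Finset.card_biUnion_le
  rintro ⟨f, t⟩ hp
  rw [Finset.mem_biUnion]
  refine ⟨t.val, ?_, ?_⟩
  · rw [Finset.mem_Ico]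
    refine ⟨?_, ZMod.val_lt t⟩
    rw [Nat.one_le_iff_ne_zero]
    intro h2
    rw [ZMod.val_eq_zero] at h2
    rw [h2, mem_YF] at hp
    exact hne f hp.1 hp.2.1 hp.2.2
  · rw [Finset.mem_filter]
    exact ⟨hp, (ZMod.natCast_zmod_val t).symm⟩

theorem BR_mono {y z : ℝ} (hyz : y ≤ z) (k l : ℕ) : (BR h y k l).ncard ≤ (BR h z k l).ncard := by
  refine Set.ncard_le_ncard ?_ (BR_finite z k l)
  rintro q ⟨⟨a1, a2⟩, ⟨b1, b2⟩, h3⟩
  exact ⟨⟨a1, fun i => ⟨by linarith [(a2 i).1], by linarith [(a2 i).2]⟩⟩,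
    ⟨b1, fun i => ⟨by linarith [(b2 i).1], by linarith [(b2 i).2]⟩⟩, h3⟩

end

/-- a polygon is not contained in a line -/
theorem not_flat {a b : ℝ} (hab : a ^ 2 + b ^ 2 = 1) {m : ℕ} (hm : 3 ≤ m) [NeZero m]
    (f : ZMod m → ℤ × ℤ) (hf : Loop m f) (h1 : Lo (ht a b) 0 f 0) (h2 : Hi (ht a b) 0 f 0) :
    False := by
  have hc : ∀ t, ht a b (f t) = ht a b (f 0) := by
    intro t
    have e1 := h1 t
    have e2 := h2 t
    linarith
  have hne : ∀ t : ZMod m, t + 1 ≠ t - 1 := by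
    intro t h
    have h3 : ((2 : ℕ) : ZMod m) = 0 := by
      have h4 : (t + 1) - (t - 1) = 0 := by rw [h, sub_self]
      push_cast
      linear_combination h4
    rw [ZMod.natCast_eq_zero_iff] at h3
    have := Nat.le_of_dvd (by norm_num) h3
    omega
  have hstep : ∀ t, a * ((f (t + 1)).1 - (f t).1 : ℤ) + b * ((f (t + 1)).2 - (f t).2 : ℤ) = 0 := by
    intro t
    have e1 := hc (t + 1)
    have e2 := hc t
    unfold ht at e1 e2
    push_cast
    linarith
  -- two neighbours of a point which is extreme in the coordinate `c` and has the same other one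
  rcases eq_or_ne a 0 with ha | ha
  · have hb : b ≠ 0 := by
      rintro rfl
      rw [ha] at hab
      norm_num at hab
    have hs : ∀ t, (f (t + 1)).2 = (f t).2 := by
      intro t
      have h3 := hstep t
      rw [ha, zero_mul, zero_add, mul_eq_zero] at h3
      rcases h3 with h3 | h3
      · exact absurd h3 hb
      · have : (f (t + 1)).2 - (f t).2 = 0 := by exact_mod_cast h3
        omega
    obtain ⟨t, -, htm⟩ := Finset.exists_max_image (Finset.univ : Finset (ZMod m))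
      (fun t => (f t).1) Finset.univ_nonempty
    have g1 := hf.2.2 t
    have g2 := hf.2.2 (t - 1)
    have s1 := hs t
    have s2 := hs (t - 1)
    have m1 := htm (t + 1) (Finset.mem_univ _)
    have m2 := htm (t - 1) (Finset.mem_univ _)
    rw [sub_add_cancel] at g2 s2
    refine hne t (hf.2.1 (Prod.ext ?_ ?_))
    · rw [s1, sub_self, abs_zero, add_zero] at g1
      rw [s2, sub_self, abs_zero, add_zero] at g2
      rw [abs_of_nonpos (by omega)] at g1
      rw [abs_of_nonneg (by omega)] at g2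
      omega
    · omega
  · rcases eq_or_ne b 0 with hb | hb
    · have hs : ∀ t, (f (t + 1)).1 = (f t).1 := by
        intro t
        have h3 := hstep t
        rw [hb, zero_mul, add_zero, mul_eq_zero] at h3
        rcases h3 with h3 | h3
        · exact absurd h3 ha
        · have : (f (t + 1)).1 - (f t).1 = 0 := by exact_mod_cast h3
          omega
      obtain ⟨t, -, htm⟩ := Finset.exists_max_image (Finset.univ : Finset (ZMod m))
        (fun t => (f t).2) Finset.univ_nonempty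
      have g1 := hf.2.2 t
      have g2 := hf.2.2 (t - 1)
      have s1 := hs t
      have s2 := hs (t - 1)
      have m1 := htm (t + 1) (Finset.mem_univ _)
      have m2 := htm (t - 1) (Finset.mem_univ _)
      rw [sub_add_cancel] at g2 s2
      refine hne t (hf.2.1 (Prod.ext ?_ ?_))
      · omega
      · rw [s1, sub_self, abs_zero, zero_add] at g1
        rw [s2, sub_self, abs_zero, zero_add] at g2
        rw [abs_of_nonpos (by omega)] at g1
        rw [abs_of_nonneg (by omega)] at g2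
        omega
    · have g1 := hf.2.2 0
      have h3 := hstep 0
      rw [zero_add] at g1 h3
      set p := (f 1).1 - (f 0).1 with hp
      set q := (f 1).2 - (f 0).2 with hq
      have h4 : (p = 0 ∧ q ≠ 0) ∨ (p ≠ 0 ∧ q = 0) := by
        rcases eq_or_ne p 0 with h5 | h5
        · left
          refine ⟨h5, ?_⟩
          intro h6
          rw [h5, h6] at g1
          norm_num at g1
        · right
          refine ⟨h5, ?_⟩
          have h6 : 1 ≤ |p| := Int.one_le_abs h5
          have h7 : |q| = 0 := by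
            have := abs_nonneg q
            omega
          exact abs_eq_zero.1 h7
      rcases h4 with ⟨h5, h6⟩ | ⟨h5, h6⟩
      · rw [h5, Int.cast_zero, mul_zero, zero_add, mul_eq_zero] at h3
        rcases h3 with h3 | h3
        · exact hb h3
        · exact h6 (by exact_mod_cast h3)
      · rw [h6, Int.cast_zero, mul_zero, add_zero, mul_eq_zero] at h3
        rcases h3 with h3 | h3
        · exact ha h3
        · exact h5 (by exact_mod_cast h3)

end Run7.h738.HPP
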