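import Pool.Agent.Run7.h738.EX.PairT

/-! # Exponential tails and means, for a finite family -/

set_option autoImplicit false

namespace Run7.h738.HPP

open scoped Classical

variable {ι : Type*}

/-- the mean -/
theorem mean_gen (F : Finset ι) (N : ι → ℕ) {K : ℝ} (hK : 1 ≤ K)
    (h : ∀ z : ℝ, 0 ≤ z → ((F.filter (fun i => K * (1 + z) < N i)).card : ℝ) ≤
      Real.exp (-z) * F.card) :
    ∑ i ∈ F, (N i : ℝ) ≤ 4 * K * F.card := by
  have hK0 : 0 < K := by linarith
  obtain ⟨J, hJ⟩ : ∃ J : ℕ, ∀ i ∈ F, (N i : ℝ) ≤ K * (1 + J) := by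
    refine ⟨∑ i ∈ F, N i, fun i hi => ?_⟩
    have h1 : N i ≤ ∑ i ∈ F, N i := Finset.single_le_sum (f := N) (fun _ _ => Nat.zero_le _) hi
    have h2 : (N i : ℝ) ≤ ((∑ i ∈ F, N i : ℕ) : ℝ) := by exact_mod_cast h1
    nlinarith [Nat.cast_nonneg (α := ℝ) (∑ i ∈ F, N i)]
  have hpt : ∀ i ∈ F, (N i : ℝ) ≤ K * (1 + ∑ j ∈ Finset.range J,
      if K * (1 + max (j : ℝ) 0) < N i then (1 : ℝ) else 0) := by
    intro i hi
    rcases lt_or_ge (K * (1 + 0)) (N i : ℝ) with h1 | h1
    · exact Run7.h738.EX.nat_le_ind2 hK0 (hJ i hi) h1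
    · have h2 : 0 ≤ ∑ j ∈ Finset.range J,
          if K * (1 + max (j : ℝ) 0) < N i then (1 : ℝ) else 0 :=
        Finset.sum_nonneg fun j _ => by split_ifs <;> norm_num
      nlinarith
  have htail : ∀ z : ℝ, 0 ≤ z → (∑ i ∈ F, if K * (1 + z) < N i then (1 : ℝ) else 0) ≤
      Real.exp (-z) * F.card := by
    intro z hz
    rw [← Finset.sum_filter, Finset.sum_const, nsmul_eq_mul, mul_one]
    exact h z hz
  have hF0 : (0 : ℝ) ≤ F.card := Nat.cast_nonneg _
  calc ∑ i ∈ F, (N i : ℝ) ≤ ∑ i ∈ F, K * (1 + ∑ j ∈ Finset.range J,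
      if K * (1 + max (j : ℝ) 0) < N i then (1 : ℝ) else 0) := Finset.sum_le_sum hpt
    _ = K * (F.card + ∑ j ∈ Finset.range J, ∑ i ∈ F,
      if K * (1 + max (j : ℝ) 0) < N i then (1 : ℝ) else 0) := by
        rw [← Finset.mul_sum, Finset.sum_add_distrib, Finset.sum_comm, Finset.sum_const,
          nsmul_eq_mul, mul_one]
    _ ≤ K * (F.card + ∑ j ∈ Finset.range J, Real.exp (-(max (j : ℝ) 0)) * F.card) := by
        refine mul_le_mul_of_nonneg_left ?_ hK0.le
        refine add_le_add (le_refl _) (Finset.sum_le_sum fun j _ => ?_)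
        exact htail _ (le_max_right _ _)
    _ = K * (F.card + (∑ j ∈ Finset.range J, Real.exp (-(max (j : ℝ) 0))) * F.card) := by
        rw [Finset.sum_mul]
    _ ≤ K * (F.card + 3 * F.card) := by
        refine mul_le_mul_of_nonneg_left ?_ hK0.le
        refine add_le_add (le_refl _) (mul_le_mul_of_nonneg_right ?_ hF0)
        have := Run7.h738.EX.sum_exp_max 0 J
        simpa using this
    _ = 4 * K * F.card := by ring

/-- the part of the mean which comes from the large values -/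
theorem tail_gen (F : Finset ι) (N : ι → ℕ) {K : ℝ} (hK : 1 ≤ K)
    (h : ∀ z : ℝ, 0 ≤ z → ((F.filter (fun i => K * (1 + z) < N i)).card : ℝ) ≤
      Real.exp (-z) * F.card) {x : ℝ} (hx : 0 ≤ x) :
    ∑ i ∈ F.filter (fun i => 8 * K ^ 2 * (1 + x) < N i), (N i : ℝ) ≤
      Real.exp (-x) * F.card := by
  have hK0 : 0 < K := by linarith
  set x' := 2 * x + 2 * Real.log (4 * K) with hx'
  have hlog0 : 0 ≤ Real.log (4 * K) := Real.log_nonneg (by linarith)
  have hlog1 : Real.log (4 * K) ≤ 4 * K - 1 := Real.log_le_sub_one_of_pos (by linarith)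
  have hx'0 : 0 ≤ x' := by
    rw [hx']
    linarith
  have hthr : K * (1 + x') ≤ 8 * K ^ 2 * (1 + x) := by
    have h1 : 1 + x' ≤ 8 * K * (1 + x) := by
      rw [hx']
      nlinarith
    calc K * (1 + x') ≤ K * (8 * K * (1 + x)) := mul_le_mul_of_nonneg_left h1 hK0.le
      _ = 8 * K ^ 2 * (1 + x) := by ring
  obtain ⟨J, hJ⟩ : ∃ J : ℕ, ∀ i ∈ F, (N i : ℝ) ≤ K * (1 + J) := by
    refine ⟨∑ i ∈ F, N i, fun i hi => ?_⟩
    have h1 : N i ≤ ∑ i ∈ F, N i := Finset.single_le_sum (f := N) (fun _ _ => Nat.zero_le _) hi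
    have h2 : (N i : ℝ) ≤ ((∑ i ∈ F, N i : ℕ) : ℝ) := by exact_mod_cast h1
    nlinarith [Nat.cast_nonneg (α := ℝ) (∑ i ∈ F, N i)]
  have htail : ∀ z : ℝ, 0 ≤ z → (∑ i ∈ F, if K * (1 + z) < N i then (1 : ℝ) else 0) ≤
      Real.exp (-z) * F.card := by
    intro z hz
    rw [← Finset.sum_filter, Finset.sum_const, nsmul_eq_mul, mul_one]
    exact h z hz
  have hF0 : (0 : ℝ) ≤ F.card := Nat.cast_nonneg _
  calc ∑ i ∈ F.filter (fun i => 8 * K ^ 2 * (1 + x) < N i), (N i : ℝ)
      ≤ ∑ i ∈ F, K * ((if K * (1 + x') < N i then (1 : ℝ) else 0) +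
        ∑ j ∈ Finset.range J, if K * (1 + max (j : ℝ) x') < N i then (1 : ℝ) else 0) := by
        rw [Finset.sum_filter]
        refine Finset.sum_le_sum fun i hi => ?_
        have hnn : 0 ≤ ∑ j ∈ Finset.range J,
            if K * (1 + max (j : ℝ) x') < N i then (1 : ℝ) else 0 :=
          Finset.sum_nonneg fun j _ => by split_ifs <;> norm_num
        split_ifs with h2 h3 h3
        · exact Run7.h738.EX.nat_le_ind2 hK0 (hJ i hi) h3
        · exact absurd (lt_of_le_of_lt hthr h2) h3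
        · positivity
        · positivity
    _ = K * ((∑ i ∈ F, if K * (1 + x') < N i then (1 : ℝ) else 0) +
        ∑ j ∈ Finset.range J, ∑ i ∈ F,
          if K * (1 + max (j : ℝ) x') < N i then (1 : ℝ) else 0) := by
        rw [← Finset.mul_sum, Finset.sum_add_distrib, Finset.sum_comm]
    _ ≤ K * (Real.exp (-x') * F.card +
        ∑ j ∈ Finset.range J, Real.exp (-(max (j : ℝ) x')) * F.card) := by
        refine mul_le_mul_of_nonneg_left ?_ hK0.le
        refine add_le_add (htail x' hx'0) (Finset.sum_le_sum fun j _ => ?_)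
        exact htail _ (hx'0.trans (le_max_right _ _))
    _ = K * (Real.exp (-x') + ∑ j ∈ Finset.range J, Real.exp (-(max (j : ℝ) x'))) * F.card := by
        rw [← Finset.sum_mul]
        ring
    _ ≤ K * (Real.exp (-(x' / 2)) + 3 * Real.exp (-(x' / 2))) * F.card := by
        refine mul_le_mul_of_nonneg_right (mul_le_mul_of_nonneg_left ?_ hK0.le) hF0
        refine add_le_add (Real.exp_le_exp.2 (by linarith)) (Run7.h738.EX.sum_exp_max x' J)
    _ = Real.exp (-x) * F.card := by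
        have e : Real.exp (-(x' / 2)) = Real.exp (-x) * (4 * K)⁻¹ := by
          rw [hx', show -((2 * x + 2 * Real.log (4 * K)) / 2) = -x + -Real.log (4 * K) by ring,
            Real.exp_add, Real.exp_neg (Real.log _), Real.exp_log (by positivity)]
        rw [e]
        field_simp
        ring

end Run7.h738.HPP
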