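import Pool.Agent.Run7.h738.BV.Extr
import Pool.Agent.Run7.h738.HPP.Gen

/-! # Pairs of mutually avoiding walks in a half-plane of any slope -/

set_option autoImplicit false

namespace Run7.h738.HPP

open scoped Classical
open Run7.h738.BV (nS Steep Kb Kb_gt steep_tail ht steep_ht)
open Pool.Agent.W840.CT (SW cn cn_pos)
open Pool.Agent.TH546.SAW (W mem_W card_W)

/-- a step -/
def st (u v : ℤ × ℤ) : Prop := |v.1 - u.1| + |v.2 - u.2| = 1

theorem st_symm {u v : ℤ × ℤ} (h : st u v) : st v u := by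
  unfold st at *
  rw [abs_sub_comm v.1, abs_sub_comm v.2] at h
  exact h

theorem st_sub {u v : ℤ × ℤ} (w : ℤ × ℤ) (h : st u v) : st (u - w) (v - w) := by
  unfold st at *
  simpa using h

theorem SW_step {n : ℕ} {ω : Fin (n + 1) → ℤ × ℤ} (h : SW n ω) (a : ℕ) (ha : a + 1 < n + 1) :
    st (ω ⟨a, by omega⟩) (ω ⟨a + 1, ha⟩) :=
  h.2.1 ⟨a, by omega⟩

theorem SW_intro {n : ℕ} {ω : Fin (n + 1) → ℤ × ℤ} (h0 : ω 0 = 0)
    (hs : ∀ (a : ℕ) (ha : a + 1 < n + 1), st (ω ⟨a, by omega⟩) (ω ⟨a + 1, ha⟩))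
    (hi : Function.Injective ω) : SW n ω :=
  ⟨h0, fun i => hs i.1 (by omega), hi⟩

section
variable (h : ℤ × ℤ → ℝ)

/-- the walks in the half-plane -/
def HW (y : ℝ) (n : ℕ) : Set (Fin (n + 1) → ℤ × ℤ) := {ω | SW n ω ∧ ∀ i, h (ω i) ≤ y}

/-- two walks meet only at their common starting point -/
def Avoid {k m : ℕ} (α : Fin (k + 1) → ℤ × ℤ) (β : Fin (m + 1) → ℤ × ℤ) : Prop :=
  ∀ i j, α i = β j → i = 0 ∧ j = 0

/-- the pairs of mutually avoiding walks in the half-plane -/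
def PP (y : ℝ) (k m : ℕ) : Set ((Fin (k + 1) → ℤ × ℤ) × (Fin (m + 1) → ℤ × ℤ)) :=
  {q | q.1 ∈ HW h y k ∧ q.2 ∈ HW h y m ∧ Avoid q.1 q.2}

/-- the walks which almost reach their maximum at the time `k` -/
def EE (y : ℝ) (k m : ℕ) : Set (Fin (k + m + 1) → ℤ × ℤ) :=
  {ω | SW (k + m) ω ∧ ∀ j, h (ω j) ≤ h (ω ⟨k, by omega⟩) + y}

/-- cut at the time `k` -/
def cut {k m : ℕ} (ω : Fin (k + m + 1) → ℤ × ℤ) :
    (Fin (k + 1) → ℤ × ℤ) × (Fin (m + 1) → ℤ × ℤ) :=
  (fun i => ω ⟨k - i.1, by omega⟩ - ω ⟨k, by omega⟩,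
    fun j => ω ⟨k + j.1, by omega⟩ - ω ⟨k, by omega⟩)

/-- glue -/
def glue {k m : ℕ} (q : (Fin (k + 1) → ℤ × ℤ) × (Fin (m + 1) → ℤ × ℤ)) :
    Fin (k + m + 1) → ℤ × ℤ :=
  fun i => if hi : i.1 ≤ k then q.1 ⟨k - i.1, by omega⟩ - q.1 (Fin.last k)
    else q.2 ⟨i.1 - k, by omega⟩ - q.1 (Fin.last k)

variable {h}

theorem cut_mem (hsub : ∀ u v, h (u - v) = h u - h v) {y : ℝ} {k m : ℕ}
    {ω : Fin (k + m + 1) → ℤ × ℤ} (hω : ω ∈ EE h y k m) : cut ω ∈ PP h y k m := by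
  obtain ⟨h1, h2⟩ := hω
  have hinj := h1.2.2
  refine ⟨⟨SW_intro ?_ ?_ ?_, ?_⟩, ⟨SW_intro ?_ ?_ ?_, ?_⟩, ?_⟩
  · simp [cut]
  · intro a ha
    have h3 := SW_step h1 (k - (a + 1)) (by omega)
    have e : (⟨k - (a + 1) + 1, by omega⟩ : Fin (k + m + 1)) = ⟨k - a, by omega⟩ :=
      Fin.ext (by simp; omega)
    rw [e] at h3
    exact st_sub _ (st_symm h3)
  · intro i j hij
    have h3 := hinj (sub_left_injective hij)
    rw [Fin.mk.injEq] at h3
    exact Fin.ext (by omega)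
  · intro i
    show h (ω _ - ω _) ≤ y
    rw [hsub]
    have := h2 ⟨k - i.1, by omega⟩
    linarith
  · simp [cut]
  · intro a ha
    exact st_sub _ (SW_step h1 (k + a) (by omega))
  · intro i j hij
    have h3 := hinj (sub_left_injective hij)
    rw [Fin.mk.injEq] at h3
    exact Fin.ext (by omega)
  · intro i
    show h (ω _ - ω _) ≤ y
    rw [hsub]
    have := h2 ⟨k + i.1, by omega⟩
    linarith
  · intro i j hij
    have h3 := hinj (sub_left_injective hij)
    rw [Fin.mk.injEq] at h3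
    have e1 : (i : ℕ) = 0 := by omega
    have e2 : (j : ℕ) = 0 := by omega
    exact ⟨Fin.ext e1, Fin.ext e2⟩

theorem cut_inj {k m : ℕ} {ω ω' : Fin (k + m + 1) → ℤ × ℤ} (h0 : ω 0 = ω' 0)
    (hc : cut ω = cut ω') : ω = ω' := by
  have h1 := congrArg Prod.fst hc
  have h2 := congrArg Prod.snd hc
  have hk : ω ⟨k, by omega⟩ = ω' ⟨k, by omega⟩ := by
    have h3 := congrFun h1 (Fin.last k)
    simp only [cut, Fin.val_last] at h3
    have e : (⟨k - k, by omega⟩ : Fin (k + m + 1)) = 0 := Fin.ext (by simp)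
    rw [e, h0] at h3
    exact sub_right_injective h3
  funext i
  rcases le_total i.1 k with hi | hi
  · have h3 := congrFun h1 ⟨k - i.1, by omega⟩
    simp only [cut] at h3
    have e : (⟨k - (k - i.1), by omega⟩ : Fin (k + m + 1)) = i := Fin.ext (by simp; omega)
    rw [e, hk] at h3
    exact sub_left_injective h3
  · have h3 := congrFun h2 ⟨i.1 - k, by omega⟩
    simp only [cut] at h3
    have e : (⟨k + (i.1 - k), by omega⟩ : Fin (k + m + 1)) = i := Fin.ext (by simp; omega)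
    rw [e, hk] at h3
    exact sub_left_injective h3

theorem glue_le {k m : ℕ} (q : (Fin (k + 1) → ℤ × ℤ) × (Fin (m + 1) → ℤ × ℤ)) (a : ℕ)
    (ha : a ≤ k) : glue q ⟨a, by omega⟩ = q.1 ⟨k - a, by omega⟩ - q.1 (Fin.last k) :=
  dif_pos ha

theorem glue_ge {k m : ℕ} (q : (Fin (k + 1) → ℤ × ℤ) × (Fin (m + 1) → ℤ × ℤ))
    (hq : q.1 0 = q.2 0) (a : ℕ) (ha : a ≤ m) :
    glue q ⟨k + a, by omega⟩ = q.2 ⟨a, by omega⟩ - q.1 (Fin.last k) := by
  rcases Nat.eq_zero_or_pos a with h0 | h0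
  · subst h0
    rw [glue_le q (k + 0) (by omega)]
    have e1 : (⟨k - (k + 0), by omega⟩ : Fin (k + 1)) = 0 := Fin.ext (by simp)
    have e2 : (⟨0, by omega⟩ : Fin (m + 1)) = 0 := rfl
    rw [e1, e2, hq]
  · unfold glue
    rw [dif_neg (by simp; omega)]
    have e : (⟨k + a - k, by omega⟩ : Fin (m + 1)) = ⟨a, by omega⟩ := Fin.ext (by simp)
    rw [e]

theorem glue_mem (hsub : ∀ u v, h (u - v) = h u - h v) {y : ℝ} {k m : ℕ}
    {q : (Fin (k + 1) → ℤ × ℤ) × (Fin (m + 1) → ℤ × ℤ)} (hq : q ∈ PP h y k m) :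
    glue q ∈ EE h y k m := by
  obtain ⟨⟨a1, a2⟩, ⟨b1, b2⟩, hav⟩ := hq
  have h00 : h 0 = 0 := by
    have := hsub 0 0
    rw [sub_self] at this
    linarith
  have ha0 : q.1 0 = 0 := a1.1
  have hb0 : q.2 0 = 0 := b1.1
  have hab : q.1 0 = q.2 0 := ha0.trans hb0.symm
  have hsplit : ∀ i : Fin (k + m + 1), (∃ a : ℕ, ∃ ha : a ≤ k, i = ⟨a, by omega⟩) ∨
      (∃ a : ℕ, ∃ ha : a ≤ m, 0 < a ∧ i = ⟨k + a, by omega⟩) := by
    intro i
    rcases le_or_gt i.1 k with hi | hi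
    · exact Or.inl ⟨i.1, hi, rfl⟩
    · exact Or.inr ⟨i.1 - k, by omega, by omega, Fin.ext (by simp; omega)⟩
  refine ⟨SW_intro ?_ ?_ ?_, ?_⟩
  · have := glue_le q 0 (Nat.zero_le k)
    have e : (⟨k - 0, by omega⟩ : Fin (k + 1)) = Fin.last k := Fin.ext (by simp)
    rw [e, sub_self] at this
    exact this
  · intro a ha
    rcases lt_or_ge a k with hak | hak
    · rw [glue_le q a hak.le, glue_le q (a + 1) hak]
      refine st_sub _ (st_symm ?_)
      have h3 := SW_step a1 (k - (a + 1)) (by omega)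
      have e : (⟨k - (a + 1) + 1, by omega⟩ : Fin (k + 1)) = ⟨k - a, by omega⟩ :=
        Fin.ext (by simp; omega)
      rw [e] at h3
      exact h3
    · obtain ⟨b, rfl⟩ := Nat.exists_eq_add_of_le hak
      have e1 := glue_ge q hab b (by omega)
      have e2 := glue_ge q hab (b + 1) (by omega)
      have e3 : (⟨k + b + 1, ha⟩ : Fin (k + m + 1)) = ⟨k + (b + 1), by omega⟩ := rfl
      rw [e1, e3, e2]
      exact st_sub _ (SW_step b1 b (by omega))
  · intro i j hij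
    rcases hsplit i with ⟨a, ha, rfl⟩ | ⟨a, ha, ha', rfl⟩ <;>
      rcases hsplit j with ⟨b, hb, rfl⟩ | ⟨b, hb, hb', rfl⟩
    · rw [glue_le q a ha, glue_le q b hb] at hij
      have h3 := a1.2.2 (sub_left_injective hij)
      rw [Fin.mk.injEq] at h3
      exact Fin.ext (by simp; omega)
    · rw [glue_le q a ha, glue_ge q hab b hb] at hij
      have h3 := hav _ _ (sub_left_injective hij)
      have h4 := congrArg Fin.val h3.2
      simp at h4
      omega
    · rw [glue_ge q hab a ha, glue_le q b hb] at hij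
      have h3 := hav _ _ (sub_left_injective hij.symm)
      have h4 := congrArg Fin.val h3.2
      simp at h4
      omega
    · rw [glue_ge q hab a ha, glue_ge q hab b hb] at hij
      have h3 := b1.2.2 (sub_left_injective hij)
      rw [Fin.mk.injEq] at h3
      exact Fin.ext (by simp; omega)
  · intro j
    have e1 := glue_le q k le_rfl
    have e : (⟨k - k, by omega⟩ : Fin (k + 1)) = 0 := Fin.ext (by simp)
    rw [e, ha0] at e1
    rw [e1, hsub, h00]
    rcases hsplit j with ⟨a, ha, rfl⟩ | ⟨a, ha, ha', rfl⟩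
    · rw [glue_le q a ha, hsub]
      have := a2 ⟨k - a, by omega⟩
      linarith
    · rw [glue_ge q hab a ha, hsub]
      have := b2 ⟨a, by omega⟩
      linarith

theorem glue_inj {k m : ℕ} {q q' : (Fin (k + 1) → ℤ × ℤ) × (Fin (m + 1) → ℤ × ℤ)}
    (h1 : q.1 0 = 0) (h2 : q.2 0 = 0) (h1' : q'.1 0 = 0) (h2' : q'.2 0 = 0)
    (hg : glue q = glue q') : q = q' := by
  have e : (⟨k - k, by omega⟩ : Fin (k + 1)) = 0 := Fin.ext (by simp)
  have hl : q.1 (Fin.last k) = q'.1 (Fin.last k) := by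
    have h3 := congrFun hg ⟨k, by omega⟩
    rw [glue_le q k le_rfl, glue_le q' k le_rfl, e, h1, h1'] at h3
    exact sub_right_injective h3
  refine Prod.ext ?_ ?_
  · funext i
    have h3 := congrFun hg ⟨k - i.1, by omega⟩
    rw [glue_le q (k - i.1) (by omega), glue_le q' (k - i.1) (by omega), hl] at h3
    have e2 : (⟨k - (k - i.1), by omega⟩ : Fin (k + 1)) = i := Fin.ext (by simp; omega)
    rw [e2] at h3
    exact sub_left_injective h3
  · funext i
    have h3 := congrFun hg ⟨k + i.1, by omega⟩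
    rw [glue_ge q (h1.trans h2.symm) i.1 (by omega), glue_ge q' (h1'.trans h2'.symm) i.1 (by omega),
      hl] at h3
    exact sub_left_injective h3

theorem EE_finite (y : ℝ) (k m : ℕ) : (EE h y k m).Finite := by
  refine (Finset.finite_toSet (W (k + m))).subset ?_
  intro ω hω
  rw [Finset.mem_coe, mem_W]
  exact hω.1

theorem HW_finite (y : ℝ) (n : ℕ) : (HW h y n).Finite := by
  refine (Finset.finite_toSet (W n)).subset ?_
  intro ω hω
  rw [Finset.mem_coe, mem_W]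
  exact hω.1

theorem PP_finite (y : ℝ) (k m : ℕ) : (PP h y k m).Finite := by
  refine ((HW_finite (h := h) y k).prod (HW_finite (h := h) y m)).subset ?_
  intro q hq
  exact ⟨hq.1, hq.2.1⟩

theorem PP_card (hsub : ∀ u v, h (u - v) = h u - h v) (y : ℝ) (k m : ℕ) :
    (PP h y k m).ncard = (EE h y k m).ncard := by
  apply le_antisymm
  · refine Set.ncard_le_ncard_of_injOn glue (fun q hq => glue_mem hsub hq) ?_ (EE_finite y k m)
    intro q hq q' hq' hg
    exact glue_inj hq.1.1.1 hq.2.1.1.1 hq'.1.1.1 hq'.2.1.1.1 hg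
  · refine Set.ncard_le_ncard_of_injOn cut (fun q hq => cut_mem hsub hq) ?_ (PP_finite y k m)
    intro ω hω ω' hω' hc
    exact cut_inj (hω.1.1.trans hω'.1.1.symm) hc

end

end Run7.h738.HPP
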