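import Pool.Agent.Run7.h738.HPP.Gen

/-! # The second moment -/

set_option autoImplicit false

namespace Run7.h738.HPP

open scoped Classical

theorem sq_le {K : ℝ} (hK : 0 < K) {n J : ℕ} (hJ : (n : ℝ) ≤ K * (1 + J)) :
    (n : ℝ) ^ 2 ≤ K ^ 2 * (1 + ∑ j ∈ Finset.range J,
      (2 * (j : ℝ) + 3) * if K * (1 + j) < n then (1 : ℝ) else 0) := by
  set m := ⌈(n : ℝ) / K⌉₊ - 1 with hm
  have hmJ : m ≤ J := by
    have h1 : (n : ℝ) / K ≤ ((1 + J : ℕ) : ℝ) := by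
      rw [div_le_iff₀ hK]
      push_cast
      linarith
    have h2 := Nat.ceil_le.2 h1
    omega
  have h1 : ∀ j ∈ Finset.range m, K * (1 + (j : ℝ)) < n := by
    intro j hj
    rw [Finset.mem_range] at hj
    have h2 : j + 1 < ⌈(n : ℝ) / K⌉₊ := by omega
    rw [Nat.lt_ceil, lt_div_iff₀ hK] at h2
    push_cast at h2
    linarith
  have hsq : ∀ m : ℕ, (1 + (m : ℝ)) ^ 2 = 1 + ∑ j ∈ Finset.range m, (2 * (j : ℝ) + 3) := by
    intro m
    induction m with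
    | zero => simp
    | succ m ih =>
      rw [Finset.sum_range_succ, ← add_assoc, ← ih]
      push_cast
      ring
  have h2 : ∑ j ∈ Finset.range m, (2 * (j : ℝ) + 3) ≤ ∑ j ∈ Finset.range J,
      (2 * (j : ℝ) + 3) * if K * (1 + j) < n then (1 : ℝ) else 0 := by
    have h3 : ∑ j ∈ Finset.range m, (2 * (j : ℝ) + 3) = ∑ j ∈ Finset.range m,
        (2 * (j : ℝ) + 3) * if K * (1 + j) < n then (1 : ℝ) else 0 :=
      Finset.sum_congr rfl fun j hj => by rw [if_pos (h1 j hj), mul_one]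
    rw [h3]
    refine Finset.sum_le_sum_of_subset_of_nonneg (Finset.range_subset_range.2 hmJ) ?_
    intro j _ _
    split_ifs <;> positivity
  have h4 := Nat.le_ceil ((n : ℝ) / K)
  rw [div_le_iff₀ hK] at h4
  have h5 : (⌈(n : ℝ) / K⌉₊ : ℝ) ≤ 1 + m := by
    have : ⌈(n : ℝ) / K⌉₊ ≤ 1 + m := by omega
    exact_mod_cast this
  have h6 : (n : ℝ) ≤ K * (1 + m) := by nlinarith
  calc (n : ℝ) ^ 2 ≤ (K * (1 + m)) ^ 2 := pow_le_pow_left₀ (Nat.cast_nonneg _) h6 2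
    _ = K ^ 2 * (1 + ∑ j ∈ Finset.range m, (2 * (j : ℝ) + 3)) := by rw [mul_pow, hsq]
    _ ≤ _ := mul_le_mul_of_nonneg_left (by linarith) (by positivity)

theorem sum_lin_exp (J : ℕ) :
    ∑ j ∈ Finset.range J, (2 * (j : ℝ) + 3) * Real.exp (-(j : ℝ)) ≤ 12 := by
  have hr : Real.exp (-(1 / 2)) ≤ 2 / 3 := by
    have h1 : (3 / 2 : ℝ) ≤ Real.exp (1 / 2) := by
      have := Real.add_one_le_exp (1 / 2 : ℝ)
      linarith
    rw [Real.exp_neg, show (2 / 3 : ℝ) = (3 / 2)⁻¹ by norm_num]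
    exact inv_anti₀ (by norm_num) h1
  have h1 : ∀ j : ℕ, (2 * (j : ℝ) + 3) * Real.exp (-(j : ℝ)) ≤ 4 * (2 / 3) ^ j := by
    intro j
    have h2 : Real.exp (-((j : ℝ) / 2)) ≤ (2 / 3) ^ j := by
      have h3 : Real.exp (-((j : ℝ) / 2)) = (Real.exp (-(1 / 2))) ^ j := by
        rw [← Real.exp_nat_mul]
        congr 1
        ring
      rw [h3]
      exact pow_le_pow_left₀ (Real.exp_pos _).le hr _
    have h3 : (2 * (j : ℝ) + 3) * Real.exp (-((j : ℝ) / 2)) ≤ 4 := by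
      have h4 := Real.add_one_le_exp ((j : ℝ) / 2)
      rw [Real.exp_neg, ← div_eq_mul_inv, div_le_iff₀ (Real.exp_pos _)]
      linarith
    have h5 : Real.exp (-(j : ℝ)) = Real.exp (-((j : ℝ) / 2)) * Real.exp (-((j : ℝ) / 2)) := by
      rw [← Real.exp_add]
      congr 1
      ring
    rw [h5, ← mul_assoc]
    exact mul_le_mul h3 h2 (Real.exp_pos _).le (by norm_num)
  refine (Finset.sum_le_sum fun j _ => h1 j).trans ?_
  rw [← Finset.mul_sum]
  have h5 : ∑ i ∈ Finset.range J, (2 / 3 : ℝ) ^ i ≤ 3 := by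
    have := geom_sum_eq (by norm_num : (2 / 3 : ℝ) ≠ 1) J
    rw [this]
    have h6 : (0 : ℝ) ≤ (2 / 3) ^ J := by positivity
    rw [div_le_iff_of_neg (by norm_num)]
    linarith
  linarith

/-- the second moment -/
theorem sq_gen {ι : Type*} (F : Finset ι) (N : ι → ℕ) {K : ℝ} (hK : 1 ≤ K)
    (h : ∀ z : ℝ, 0 ≤ z → ((F.filter (fun i => K * (1 + z) < N i)).card : ℝ) ≤
      Real.exp (-z) * F.card) :
    ∑ i ∈ F, (N i : ℝ) ^ 2 ≤ 13 * K ^ 2 * F.card := by
  have hK0 : 0 < K := by linarith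
  obtain ⟨J, hJ⟩ : ∃ J : ℕ, ∀ i ∈ F, (N i : ℝ) ≤ K * (1 + J) := by
    refine ⟨∑ i ∈ F, N i, fun i hi => ?_⟩
    have h1 : N i ≤ ∑ i ∈ F, N i := Finset.single_le_sum (f := N) (fun _ _ => Nat.zero_le _) hi
    have h2 : (N i : ℝ) ≤ ((∑ i ∈ F, N i : ℕ) : ℝ) := by exact_mod_cast h1
    nlinarith [Nat.cast_nonneg (α := ℝ) (∑ i ∈ F, N i)]
  have htail : ∀ z : ℝ, 0 ≤ z → (∑ i ∈ F, if K * (1 + z) < N i then (1 : ℝ) else 0) ≤
      Real.exp (-z) * F.card := by
    intro z hz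
    rw [← Finset.sum_filter, Finset.sum_const, nsmul_eq_mul, mul_one]
    exact h z hz
  have hF0 : (0 : ℝ) ≤ F.card := Nat.cast_nonneg _
  calc ∑ i ∈ F, (N i : ℝ) ^ 2 ≤ ∑ i ∈ F, K ^ 2 * (1 + ∑ j ∈ Finset.range J,
      (2 * (j : ℝ) + 3) * if K * (1 + j) < N i then (1 : ℝ) else 0) :=
        Finset.sum_le_sum fun i hi => sq_le hK0 (hJ i hi)
    _ = K ^ 2 * (F.card + ∑ j ∈ Finset.range J, (2 * (j : ℝ) + 3) *
      ∑ i ∈ F, if K * (1 + j) < N i then (1 : ℝ) else 0) := by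
        rw [← Finset.mul_sum, Finset.sum_add_distrib, Finset.sum_comm, Finset.sum_const,
          nsmul_eq_mul, mul_one]
        congr 2
        exact Finset.sum_congr rfl fun j _ => by rw [Finset.mul_sum]
    _ ≤ K ^ 2 * (F.card + ∑ j ∈ Finset.range J, (2 * (j : ℝ) + 3) *
        (Real.exp (-(j : ℝ)) * F.card)) := by
        refine mul_le_mul_of_nonneg_left ?_ (by positivity)
        refine add_le_add (le_refl _) (Finset.sum_le_sum fun j _ => ?_)
        exact mul_le_mul_of_nonneg_left (htail j (Nat.cast_nonneg j)) (by positivity)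
    _ = K ^ 2 * (F.card + (∑ j ∈ Finset.range J, (2 * (j : ℝ) + 3) * Real.exp (-(j : ℝ))) *
        F.card) := by
        rw [Finset.sum_mul]
        congr 2
        exact Finset.sum_congr rfl fun j _ => by ring
    _ ≤ K ^ 2 * (F.card + 12 * F.card) := by
        refine mul_le_mul_of_nonneg_left ?_ (by positivity)
        exact add_le_add (le_refl _) (mul_le_mul_of_nonneg_right (sum_lin_exp J) hF0)
    _ = 13 * K ^ 2 * F.card := by ring

end Run7.h738.HPP
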