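import Pool.Agent.Run7.h738.PG.Extr
import Pool.Agent.Run7.h738.HPP.Pairs
import Pool.Agent.Run7.h738.HPP.Sq

/-! # Polygons and pairs of mutually avoiding bridges -/

set_option autoImplicit false

namespace Run7.h738.HPP

open scoped Classical
open Run7.h738.BV (nS Steep ht steep_ht)
open Run7.h738.PG (Loop Loop_finite nP poly_extr)
open Pool.Agent.W840.CT (SW)

/-! ### Rotations -/

section rot
variable {m : ℕ}

/-- change of the root -/
def rot (i : ZMod m) (f : ZMod m → ℤ × ℤ) : ZMod m → ℤ × ℤ := fun t => f (t + i) - f i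

theorem rot_Loop (i : ZMod m) {f : ZMod m → ℤ × ℤ} (hf : Loop m f) : Loop m (rot i f) := by
  refine ⟨?_, ?_, ?_⟩
  · unfold rot
    rw [zero_add, sub_self]
  · intro a b hab
    exact add_left_injective i (hf.2.1 (sub_left_injective hab))
  · intro t
    have h := hf.2.2 (t + i)
    have e : t + 1 + i = t + i + 1 := by ring
    unfold rot
    rw [e]
    simpa using h

theorem rot_rot (i : ZMod m) {f : ZMod m → ℤ × ℤ} (h0 : f 0 = 0) : rot (-i) (rot i f) = f := by
  funext t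
  unfold rot
  rw [neg_add_cancel_right, neg_add_cancel, h0]
  simp

theorem rot_rot' (i : ZMod m) {f : ZMod m → ℤ × ℤ} (h0 : f 0 = 0) : rot i (rot (-i) f) = f := by
  have := rot_rot (-i) h0
  rwa [neg_neg] at this

end rot

section count
variable {m : ℕ} [NeZero m] (h : ℤ × ℤ → ℝ)

/-- the loops -/
noncomputable def LF (m : ℕ) [NeZero m] : Finset (ZMod m → ℤ × ℤ) :=
  (Loop_finite m (Nat.pos_of_ne_zero (NeZero.ne m))).toFinset

theorem mem_LF {f : ZMod m → ℤ × ℤ} : f ∈ LF m ↔ Loop m f := by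
  unfold LF
  rw [Set.Finite.mem_toFinset]
  rfl

/-- almost lowest -/
def Lo (y : ℝ) (f : ZMod m → ℤ × ℤ) (i : ZMod m) : Prop := ∀ j, h (f i) ≤ h (f j) + y

/-- almost highest -/
def Hi (y : ℝ) (f : ZMod m → ℤ × ℤ) (i : ZMod m) : Prop := ∀ j, h (f j) ≤ h (f i) + y

/-- loops with two marks -/
noncomputable def XF (y : ℝ) : Finset (Σ _ : ZMod m → ℤ × ℤ, ZMod m × ZMod m) :=
  (LF m).sigma (fun f => (Finset.univ.filter (fun i => Lo h y f i)) ×ˢ
    (Finset.univ.filter (fun i => Hi h y f i)))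

/-- loops with a lowest root and one mark -/
noncomputable def YF (y : ℝ) : Finset ((ZMod m → ℤ × ℤ) × ZMod m) :=
  ((LF m) ×ˢ Finset.univ).filter (fun p => Lo h y p.1 0 ∧ Hi h y p.1 p.2)

variable {h}

theorem Lo_rot (hsub : ∀ u v, h (u - v) = h u - h v) {y : ℝ} {f : ZMod m → ℤ × ℤ} {i k : ZMod m} :
    Lo h y (rot i f) k ↔ Lo h y f (k + i) := by
  unfold Lo rot
  constructor
  · intro H j
    have := H (j - i)
    rw [sub_add_cancel, hsub, hsub] at this
    linarith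
  · intro H j
    have := H (j + i)
    rw [hsub, hsub]
    linarith

theorem Hi_rot (hsub : ∀ u v, h (u - v) = h u - h v) {y : ℝ} {f : ZMod m → ℤ × ℤ} {i k : ZMod m} :
    Hi h y (rot i f) k ↔ Hi h y f (k + i) := by
  unfold Hi rot
  constructor
  · intro H j
    have := H (j - i)
    rw [sub_add_cancel, hsub, hsub] at this
    linarith
  · intro H j
    have := H (j + i)
    rw [hsub, hsub]
    linarith

theorem mem_XF {y : ℝ} {f : ZMod m → ℤ × ℤ} {i j : ZMod m} :
    (⟨f, (i, j)⟩ : Σ _ : ZMod m → ℤ × ℤ, ZMod m × ZMod m) ∈ XF h y ↔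
      Loop m f ∧ Lo h y f i ∧ Hi h y f j := by
  unfold XF
  rw [Finset.mem_sigma, mem_LF, Finset.mem_product, Finset.mem_filter, Finset.mem_filter]
  simp

theorem mem_YF {y : ℝ} {f : ZMod m → ℤ × ℤ} {k : ZMod m} :
    (f, k) ∈ YF h y ↔ Loop m f ∧ Lo h y f 0 ∧ Hi h y f k := by
  unfold YF
  rw [Finset.mem_filter, Finset.mem_product, mem_LF]
  simp

theorem Y_le_X (hsub : ∀ u v, h (u - v) = h u - h v) (y : ℝ) :
    m * (YF (m := m) h y).card ≤ (XF (m := m) h y).card := by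
  have e : m * (YF (m := m) h y).card =
      ((Finset.univ : Finset (ZMod m)) ×ˢ (YF (m := m) h y)).card := by
    rw [Finset.card_product, Finset.card_univ, ZMod.card]
  rw [e]
  refine Finset.card_le_card_of_injOn
    (fun p => (⟨rot (-p.1) p.2.1, (p.1, p.2.2 + p.1)⟩ : Σ _ : ZMod m → ℤ × ℤ, ZMod m × ZMod m)) ?_ ?_
  · rintro ⟨i, f, k⟩ hp
    rw [Finset.mem_coe, Finset.mem_product, mem_YF] at hp
    obtain ⟨-, h1, h2, h3⟩ := hp
    rw [Finset.mem_coe, mem_XF, Lo_rot hsub, Hi_rot hsub]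
    refine ⟨rot_Loop _ h1, ?_, ?_⟩
    · rw [add_neg_cancel]
      exact h2
    · rw [add_neg_cancel_right]
      exact h3
  · rintro ⟨i, f, k⟩ hp ⟨i', f', k'⟩ hp' he
    rw [Finset.mem_coe, Finset.mem_product, mem_YF] at hp hp'
    simp only [Sigma.mk.injEq, heq_eq_eq, Prod.mk.injEq] at he
    obtain ⟨e1, rfl, e3⟩ := he
    have e4 : k = k' := add_left_injective i e3
    have e5 : f = f' := by
      have := congrArg (rot i) e1
      rwa [rot_rot' i hp.2.1.1, rot_rot' i hp'.2.1.1] at this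
    rw [e4, e5]

theorem X_le_Y (hsub : ∀ u v, h (u - v) = h u - h v) (y : ℝ) :
    (XF (m := m) h y).card ≤ m * (YF (m := m) h y).card := by
  have e : m * (YF (m := m) h y).card =
      ((Finset.univ : Finset (ZMod m)) ×ˢ (YF (m := m) h y)).card := by
    rw [Finset.card_product, Finset.card_univ, ZMod.card]
  rw [e]
  refine Finset.card_le_card_of_injOn
    (fun p : (Σ _ : ZMod m → ℤ × ℤ, ZMod m × ZMod m) =>
      (p.2.1, (rot p.2.1 p.1, p.2.2 - p.2.1))) ?_ ?_
  · rintro ⟨f, i, j⟩ hp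
    rw [Finset.mem_coe, mem_XF] at hp
    obtain ⟨h1, h2, h3⟩ := hp
    rw [Finset.mem_coe, Finset.mem_product, mem_YF, Lo_rot hsub, Hi_rot hsub]
    refine ⟨Finset.mem_univ _, rot_Loop _ h1, ?_, ?_⟩
    · rw [zero_add]
      exact h2
    · simp only [sub_add_cancel]
      exact h3
  · rintro ⟨f, i, j⟩ hp ⟨f', i', j'⟩ hp' he
    rw [Finset.mem_coe, mem_XF] at hp hp'
    simp only [Prod.mk.injEq] at he
    obtain ⟨rfl, e1, e3⟩ := he
    have e4 : j = j' := sub_left_injective e3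
    have e5 : f = f' := by
      have := congrArg (rot (-i)) e1
      rwa [rot_rot i hp.1.1, rot_rot i hp'.1.1] at this
    rw [e4, e5]

theorem exists_Lo {y : ℝ} (hy : 0 ≤ y) (f : ZMod m → ℤ × ℤ) : ∃ i, Lo h y f i := by
  obtain ⟨i, -, hi⟩ := Finset.exists_min_image (Finset.univ : Finset (ZMod m))
    (fun i => h (f i)) Finset.univ_nonempty
  exact ⟨i, fun j => by have := hi j (Finset.mem_univ j); linarith⟩

theorem exists_Hi {y : ℝ} (hy : 0 ≤ y) (f : ZMod m → ℤ × ℤ) : ∃ i, Hi h y f i := by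
  obtain ⟨i, -, hi⟩ := Finset.exists_max_image (Finset.univ : Finset (ZMod m))
    (fun i => h (f i)) Finset.univ_nonempty
  exact ⟨i, fun j => by have := hi j (Finset.mem_univ j); linarith⟩

theorem L_le_X {y : ℝ} (hy : 0 ≤ y) : (LF m).card ≤ (XF (m := m) h y).card := by
  unfold XF
  rw [Finset.card_sigma, Finset.card_eq_sum_ones]
  refine Finset.sum_le_sum fun f _ => ?_
  rw [Nat.succ_le_iff, Finset.card_pos]
  obtain ⟨i, hi⟩ := exists_Lo (h := h) hy f
  obtain ⟨j, hj⟩ := exists_Hi (h := h) hy f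
  exact ⟨(i, j), by simp [hi, hj]⟩

/-- the second moments -/
theorem X_le {K y : ℝ} (hK : 1 ≤ K ^ (1 + y))
    (h1 : ∀ z : ℝ, 0 ≤ z → (({f | Loop m f ∧ K ^ (1 + y) * (1 + z) < nP h y f} :
      Set (ZMod m → ℤ × ℤ)).ncard : ℝ) ≤
        Real.exp (-z) * (({f | Loop m f} : Set (ZMod m → ℤ × ℤ)).ncard : ℝ))
    (h2 : ∀ z : ℝ, 0 ≤ z → (({f | Loop m f ∧ K ^ (1 + y) * (1 + z) < nP (fun v => - h v) y f} :
      Set (ZMod m → ℤ × ℤ)).ncard : ℝ) ≤
        Real.exp (-z) * (({f | Loop m f} : Set (ZMod m → ℤ × ℤ)).ncard : ℝ)) :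
    ((XF (m := m) h y).card : ℝ) ≤ 13 * (K ^ (1 + y)) ^ 2 * (LF m).card := by
  have hL : (({f | Loop m f} : Set (ZMod m → ℤ × ℤ)).ncard : ℝ) = (LF m).card := by
    rw [← Set.ncard_coe_finset]
    congr 2
    ext f
    rw [Finset.mem_coe, mem_LF]
    rfl
  have hconv : ∀ g : ℤ × ℤ → ℝ, (∀ z : ℝ, 0 ≤ z →
      (({f | Loop m f ∧ K ^ (1 + y) * (1 + z) < nP g y f} :
      Set (ZMod m → ℤ × ℤ)).ncard : ℝ) ≤
        Real.exp (-z) * (({f | Loop m f} : Set (ZMod m → ℤ × ℤ)).ncard : ℝ)) →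
      ∑ f ∈ LF m, (nP g y f : ℝ) ^ 2 ≤ 13 * (K ^ (1 + y)) ^ 2 * (LF m).card := by
    intro g hg
    refine sq_gen (LF m) (fun f => nP g y f) hK ?_
    intro z hz
    have h3 := hg z hz
    rw [hL] at h3
    refine le_trans (le_of_eq ?_) h3
    rw [← Set.ncard_coe_finset]
    congr 2
    ext f
    rw [Finset.mem_coe, Finset.mem_filter, mem_LF]
    rfl
  have e1 := hconv h h1
  have e2 := hconv (fun v => - h v) h2
  have hn1 : ∀ f : ZMod m → ℤ × ℤ,
      ((Finset.univ : Finset (ZMod m)).filter (fun i => Hi h y f i)).card = nP h y f := by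
    intro f
    unfold nP
    rw [← Set.ncard_coe_finset]
    congr 1
    ext i
    simp [Hi]
  have hn2 : ∀ f : ZMod m → ℤ × ℤ,
      ((Finset.univ : Finset (ZMod m)).filter (fun i => Lo h y f i)).card =
        nP (fun v => - h v) y f := by
    intro f
    unfold nP
    rw [← Set.ncard_coe_finset]
    congr 1
    ext i
    simp only [Finset.coe_filter, Finset.mem_univ, true_and, Set.mem_setOf_eq, Lo]
    refine forall_congr' fun j => ?_
    constructor <;> intro h4 <;> linarith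
  unfold XF
  rw [Finset.card_sigma, Nat.cast_sum]
  calc ∑ f ∈ LF m, (((Finset.univ.filter (fun i => Lo h y f i)) ×ˢ
      (Finset.univ.filter (fun i => Hi h y f i))).card : ℝ)
      = ∑ f ∈ LF m, (nP (fun v => - h v) y f : ℝ) * (nP h y f : ℝ) := by
        refine Finset.sum_congr rfl fun f _ => ?_
        rw [Finset.card_product, hn1, hn2]
        push_cast
        rfl
    _ ≤ ∑ f ∈ LF m, (((nP (fun v => - h v) y f : ℝ) ^ 2 + (nP h y f : ℝ) ^ 2) / 2) := by
        refine Finset.sum_le_sum fun f _ => ?_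
        nlinarith [sq_nonneg ((nP (fun v => - h v) y f : ℝ) - (nP h y f : ℝ))]
    _ = (∑ f ∈ LF m, (nP (fun v => - h v) y f : ℝ) ^ 2 +
        ∑ f ∈ LF m, (nP h y f : ℝ) ^ 2) / 2 := by
        rw [← Finset.sum_div, Finset.sum_add_distrib]
    _ ≤ _ := by linarith

end count

end Run7.h738.HPP
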